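import Mathlib

/-!
# Fixed points of antimorphisms of regular self-complementary graphs (MP_b6be33_co, Q1)

We give a regular self-complementary graph on `9 = 4 * 2 + 1` vertices with a vertex which lies in
exactly `2 = 2 * (2 - 1)` triangles and which is not fixed by any isomorphism from the graph onto
its complement. So the necessary condition (`v` lies in exactly `k (k - 1)` triangles) for
`v ∈ F(G)` is not sufficient.

The vertex is `1`. Its neighbours `2, 3, 6, 7` span the path `2 - 6 - 7` and the isolated vertex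
`3`; its non-neighbours `0, 4, 5, 8` span the circuit `0 - 4 - 8 - 5`. An isomorphism onto the
complement which fixes `1` would map the neighbours of `1` onto the non-neighbours, and edges to
non-edges; but each of `0, 4, 5, 8` has a non-neighbour among `0, 4, 5, 8`, and `3` has no
neighbour among `2, 3, 6, 7`.
-/

set_option autoImplicit false

namespace Pool.Agent.Results.MP_b6be33_co.ConverseFails

/-- The number of triangles of `G` which contain the vertex `v`. -/
noncomputable def trianglesAt {V : Type} (G : SimpleGraph V) (v : V) : ℕ :=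
  {T : Finset V | G.IsNClique 3 T ∧ v ∈ T}.ncard

/-- The set `F(G)` of the vertices which are fixed by at least one isomorphism from `G` onto its
complement. -/
def fixedSet {V : Type} (G : SimpleGraph V) : Set V :=
  {v | ∃ P : G ≃g Gᶜ, P v = v}

/-- Adjacency in the example, by a table of neighbours. -/
def nb : Fin 9 → List (Fin 9) :=
  ![[2, 4, 5, 7], [2, 3, 6, 7], [0, 1, 5, 6], [1, 4, 5, 8], [0, 3, 7, 8], [0, 2, 3, 8],
    [1, 2, 7, 8], [0, 1, 4, 6], [3, 4, 5, 6]]

/-- The example: a 4-regular self-complementary graph on nine vertices. -/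
def ex : SimpleGraph (Fin 9) where
  Adj a b := b ∈ nb a
  symm := ⟨by decide⟩
  loopless := ⟨by decide⟩

instance : DecidableRel ex.Adj := fun a b => inferInstanceAs (Decidable (b ∈ nb a))

/-- The antimorphism `(1 2 3 4)(5 6 7 8)`. -/
def sg : Equiv.Perm (Fin 9) where
  toFun := ![0, 2, 3, 4, 1, 6, 7, 8, 5]
  invFun := ![0, 4, 1, 2, 3, 8, 5, 6, 7]
  left_inv := by unfold Function.LeftInverse; decide
  right_inv := by unfold Function.RightInverse Function.LeftInverse; decide

theorem sg_adj : ∀ a b : Fin 9, exᶜ.Adj (sg a) (sg b) ↔ ex.Adj a b := by decide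

/-- The example is self-complementary. -/
def sc : ex ≃g exᶜ where
  toEquiv := sg
  map_rel_iff' := by intro a b; exact sg_adj a b

theorem regular : ex.IsRegularOfDegree 4 := by
  unfold SimpleGraph.IsRegularOfDegree; decide

theorem triangles_eq : {T : Finset (Fin 9) | ex.IsNClique 3 T ∧ (1 : Fin 9) ∈ T}
    = (({{1, 2, 6}, {1, 6, 7}} : Finset (Finset (Fin 9))) : Set (Finset (Fin 9))) := by
  ext T
  simp only [Set.mem_ofPred_eq, Finset.coe_insert, Finset.coe_singleton, Set.mem_insert_iff,
    Set.mem_singleton_iff]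
  constructor
  · rintro ⟨h, h1⟩
    rw [SimpleGraph.is3Clique_iff] at h
    obtain ⟨a, b, c, hab, hac, hbc, rfl⟩ := h
    have key : ∀ a b c : Fin 9, b ∈ nb a → c ∈ nb a → c ∈ nb b →
        (1 : Fin 9) ∈ ({a, b, c} : Finset (Fin 9)) →
        (({a, b, c} : Finset (Fin 9)) = {1, 2, 6} ∨ ({a, b, c} : Finset (Fin 9)) = {1, 6, 7}) := by
      decide
    exact key a b c hab hac hbc h1
  · rintro (rfl | rfl) <;> refine ⟨?_, by decide⟩ <;> rw [SimpleGraph.is3Clique_iff]
    · exact ⟨1, 2, 6, by decide, by decide, by decide, rfl⟩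
    · exact ⟨1, 6, 7, by decide, by decide, by decide, rfl⟩

theorem triangles : trianglesAt ex 1 = 2 := by
  unfold trianglesAt
  rw [triangles_eq, Set.ncard_coe_finset]
  decide

theorem not_fixed : (1 : Fin 9) ∉ fixedSet ex := by
  rintro ⟨P, hP⟩
  have key : ∀ a b : Fin 9, exᶜ.Adj (P a) (P b) ↔ ex.Adj a b := fun a b => P.map_rel_iff
  -- the vertex `3` is a neighbour of `1`, hence `P 3` is a non-neighbour of `1`
  have h3 : exᶜ.Adj 1 (P 3) := by
    have := (key 1 3).2 (by decide); rwa [hP] at this
  -- every non-neighbour of `1` has a non-neighbour among the non-neighbours of `1`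
  have fact : ∀ x : Fin 9, exᶜ.Adj 1 x → ∃ y : Fin 9, exᶜ.Adj 1 y ∧ exᶜ.Adj x y := by decide
  obtain ⟨y, hy1, hy2⟩ := fact _ h3
  have e : P (P.symm y) = y := P.apply_symm_apply y
  have h4 : ex.Adj 1 (P.symm y) := by
    rw [← key, e, hP]; exact hy1
  have h5 : ex.Adj 3 (P.symm y) := by
    rw [← key, e]; exact hy2
  have fact2 : ∀ z : Fin 9, ex.Adj 1 z → ¬ ex.Adj 3 z := by decide
  exact fact2 _ h4 h5

/-- **Theorem.** The converse of the necessary condition fails: it is not true that in every regular
self-complementary graph on `4 k + 1` vertices each vertex which lies in exactly `k (k - 1)`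
triangles is fixed by some isomorphism from the graph onto its complement. A counterexample has nine
vertices. -/
theorem result :
    (∃ (G : SimpleGraph (Fin 9)) (v : Fin 9),
      (∀ w, (G.neighborSet w).ncard = 4) ∧ Nonempty (G ≃g Gᶜ) ∧
      trianglesAt G v = 2 * (2 - 1) ∧ v ∉ fixedSet G) ∧
    ¬ ∀ (k : ℕ) (V : Type) [Fintype V] (G : SimpleGraph V),
        Fintype.card V = 4 * k + 1 →
        (∃ d : ℕ, ∀ w, (G.neighborSet w).ncard = d) →
        Nonempty (G ≃g Gᶜ) →
        ∀ v : V, trianglesAt G v = k * (k - 1) → v ∈ fixedSet G := by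
  have hreg : ∀ w, (ex.neighborSet w).ncard = 4 := by
    intro w
    have := regular w
    rw [← SimpleGraph.card_neighborSet_eq_degree] at this
    rw [Set.ncard_eq_toFinset_card', Set.toFinset_card]
    exact this
  refine ⟨⟨ex, 1, hreg, ⟨sc⟩, ?_, not_fixed⟩, ?_⟩
  · rw [triangles]
  · intro h
    exact not_fixed (h 2 (Fin 9) ex (by simp) ⟨4, hreg⟩ ⟨sc⟩ 1 (by rw [triangles]))

end Pool.Agent.Results.MP_b6be33_co.ConverseFails
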